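import Pool.Agent.Helper2_TMP.StG

/-!
# HKA: the Hecke functions are stable under the operations
-/

open scoped BigOperators

namespace Pool.Agent.DEN.TMP.H18

open Pool.Agent.DEN Pool.Agent.DEN.TMP

section
variable {H : Type} [Group H] {L : Subgroup H}

theorem out_mul (y : H ⧸ L) (g : H) (hg : (QuotientGroup.mk g : H ⧸ L) = y) :
    ∃ l ∈ L, y.out = g * l := by
  have h : (QuotientGroup.mk g : H ⧸ L) = QuotientGroup.mk y.out := by
    rw [hg, QuotientGroup.out_eq']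
  rw [QuotientGroup.eq] at h
  exact ⟨g⁻¹ * y.out, h, by group⟩

theorem Hk.out {κ : H → ℂ} (h : Hk L κ) (g : H) :
    κ (QuotientGroup.mk g : H ⧸ L).out = κ g := by
  obtain ⟨l, hl, e⟩ := out_mul (L := L) (QuotientGroup.mk g) g rfl
  rw [e, (h.1 l hl g).2]

theorem hk_add {κ κ' : H → ℂ} (h : Hk L κ) (h' : Hk L κ') : Hk L (κ + κ') := by
  refine ⟨fun k hk g => ?_, (h.2.union h'.2).subset ?_⟩
  · simp only [Pi.add_apply]
    rw [(h.1 k hk g).1, (h'.1 k hk g).1, (h.1 k hk g).2, (h'.1 k hk g).2]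
    exact ⟨rfl, rfl⟩
  · intro y hy
    by_contra hc
    simp only [Set.mem_union, Set.mem_ofPred_eq, not_or, not_not] at hc
    apply hy
    rw [Pi.add_apply, hc.1, hc.2, add_zero]

theorem hk_smul (c : ℂ) {κ : H → ℂ} (h : Hk L κ) : Hk L (c • κ) := by
  refine ⟨fun k hk g => ?_, h.2.subset ?_⟩
  · simp only [Pi.smul_apply]
    rw [(h.1 k hk g).1, (h.1 k hk g).2]
    exact ⟨rfl, rfl⟩
  · intro y hy
    by_contra hc
    simp only [Set.mem_ofPred_eq, not_not] at hc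
    apply hy
    rw [Pi.smul_apply, hc, smul_zero]

theorem hk_cnv {κ κ' : H → ℂ} (h : Hk L κ) (h' : Hk L κ') : Hk L (cnv L κ κ') := by
  refine ⟨fun k hk g => ⟨?_, ?_⟩, ?_⟩
  · unfold cnv
    rw [← finsum_comp_equiv (MulAction.toPerm k : Equiv.Perm (H ⧸ L))]
    apply finsum_congr
    intro y
    have e0 : (QuotientGroup.mk (k * y.out) : H ⧸ L) = k • y := by
      conv_rhs => rw [← QuotientGroup.out_eq' y]
      rfl
    obtain ⟨l, hl, e⟩ := out_mul (L := L) (k • y) (k * y.out) e0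
    rw [MulAction.toPerm_apply, e, (h.1 l hl _).2, (h.1 k hk _).1]
    congr 1
    rw [show (k * y.out * l)⁻¹ * (k * g) = l⁻¹ * (y.out⁻¹ * g) by group,
      (h'.1 l⁻¹ (L.inv_mem hl) _).1]
  · unfold cnv
    apply finsum_congr
    intro y
    rw [← mul_assoc, (h'.1 k hk _).2]
  · have hf : (⋃ x ∈ {y : H ⧸ L | κ y.out ≠ 0}, (fun y : H ⧸ L => x.out • y) ''
        {y : H ⧸ L | κ' y.out ≠ 0}).Finite :=
      h.2.biUnion fun x _ => h'.2.image _
    refine hf.subset ?_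
    intro y hy
    have h1 : ∃ x : H ⧸ L, κ x.out * κ' (x.out⁻¹ * y.out) ≠ 0 := by
      by_contra hc
      simp only [not_exists, not_not] at hc
      apply hy
      unfold cnv
      rw [finsum_congr hc, finsum_zero]
    obtain ⟨x, hx⟩ := h1
    rw [Set.mem_iUnion₂]
    refine ⟨x, left_ne_zero_of_mul hx, x.out⁻¹ • y, ?_, ?_⟩
    · have e0 : (QuotientGroup.mk (x.out⁻¹ * y.out) : H ⧸ L) = x.out⁻¹ • y := by
        conv_rhs => rw [← QuotientGroup.out_eq' y]
        rfl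
      rw [Set.mem_ofPred_eq, ← e0, Hk.out h']
      exact right_ne_zero_of_mul hx
    · exact smul_inv_smul _ _

theorem hk_sta (hc : HCo L) {κ : H → ℂ} (h : Hk L κ) : Hk L (sta κ) := by
  refine ⟨fun k hk g => ⟨?_, ?_⟩, ?_⟩
  · unfold sta
    rw [mul_inv_rev, (h.1 k⁻¹ (L.inv_mem hk) _).2]
  · unfold sta
    rw [mul_inv_rev, (h.1 k⁻¹ (L.inv_mem hk) _).1]
  · have hf : (⋃ x ∈ {y : H ⧸ L | κ y.out ≠ 0},
        {y : H ⧸ L | ∃ l ∈ L, y = QuotientGroup.mk (l * x.out⁻¹)}).Finite :=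
      h.2.biUnion fun x _ => hc x.out⁻¹
    refine hf.subset ?_
    intro y hy
    rw [Set.mem_iUnion₂]
    have h1 : κ y.out⁻¹ ≠ 0 := fun h0 => hy (by rw [sta, h0, map_zero])
    refine ⟨QuotientGroup.mk y.out⁻¹, ?_, ?_⟩
    · rw [Set.mem_ofPred_eq, Hk.out h]
      exact h1
    · obtain ⟨l, hl, e⟩ := out_mul (L := L) (QuotientGroup.mk y.out⁻¹) y.out⁻¹ rfl
      refine ⟨l, hl, ?_⟩
      rw [e, show l * (y.out⁻¹ * l)⁻¹ = y.out by group, QuotientGroup.out_eq']

theorem hk_uni : Hk L (uni L) := by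
  refine ⟨fun k hk g => ⟨?_, ?_⟩, ?_⟩
  · unfold uni
    rw [L.mul_mem_cancel_left hk]
  · unfold uni
    rw [L.mul_mem_cancel_right hk]
  · refine (Set.finite_singleton (QuotientGroup.mk 1 : H ⧸ L)).subset ?_
    intro y hy
    have h1 : y.out ∈ L := by
      by_contra hc
      exact hy (by rw [uni, if_neg hc])
    rw [Set.mem_singleton_iff, ← QuotientGroup.out_eq' y, QuotientGroup.eq]
    simpa using h1

end

/-- **HKA**. -/
theorem hka : HkaStmt := by
  intro H _ L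
  refine ⟨fun κ κ' h h' => hk_add h h', fun c κ h => hk_smul c h, fun κ κ' h h' => hk_cnv h h',
    fun hc κ h => hk_sta hc h, hk_uni, fun κ => ?_⟩
  funext g
  simp [sta]

end Pool.Agent.DEN.TMP.H18
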